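import Pool.Agent.helper52.HY.Spec

set_option autoImplicit false

open Complex Metric Set Filter Topology MeasureTheory
open Pool.Agent.helper98.ILF Pool.Agent.helper16.Multibrot

noncomputable section

namespace HY

theorem STO (hMOB : MOB_stmt) (hHDI : HDI_stmt) (hKO3 : V3.KO3_stmt) : STO_stmt := by
  obtain ⟨C, hC1, hC⟩ := hKO3 (1 / 32) (by norm_num) (by norm_num)
  have hC0 : 0 < C := lt_of_lt_of_le one_pos hC1
  refine ⟨1 / (400 * C), by positivity, ?_, ?_⟩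
  · rw [div_lt_div_iff₀ (by positivity) (by norm_num)]
    linarith
  intro H hH hhd h0 x hx
  have hUD0 : (0 : ℂ) ∈ UD := by
    show (0 : ℂ) ∈ ball (0 : ℂ) 1
    simp
  have hopen : IsOpen UD := isOpen_ball
  have ha : H 0 ∈ UD := hH.map hUD0
  obtain ⟨hT, hTa, -, hTd, -, hTi, -⟩ := hMOB (H 0) ha
  set G : ℂ → ℂ := fun z => T (H 0) (H z) with hG
  have hGd : DifferentiableOn ℂ G UD := hTd.comp hH.dif hH.map
  have hGi : InjOn G UD := hTi.comp hH.inj hH.map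
  have hGm : ∀ z ∈ UD, G z ∈ UD := fun z hz => (hT (H z) (hH.map hz)).1
  have hG0 : G 0 = 0 := hTa
  have hHat : ∀ z ∈ UD, DifferentiableAt ℂ H z := fun z hz => (hH.dif z hz).differentiableAt (hopen.mem_nhds hz)
  have hGat : ∀ z ∈ UD, DifferentiableAt ℂ G z := fun z hz => (hGd z hz).differentiableAt (hopen.mem_nhds hz)
  have hhdG : ∀ z ∈ UD, hd G z = hd H z := fun z hz => (hHDI.1 (H 0) H z ha (hHat z hz) (hH.map hz)).1
  have hnorm : ∀ z ∈ UD, ‖z‖ < 1 := by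
    intro z hz
    have : z ∈ ball (0 : ℂ) 1 := hz
    simpa using this
  have hder : ∀ z ∈ UD, ‖deriv G z‖ ≤ hd H z := by
    intro z hz
    rw [← hhdG z hz]
    unfold hd
    have h1 := hnorm _ (hGm z hz)
    have h2 := norm_nonneg (G z)
    have h3 : 0 < 1 - ‖G z‖ ^ 2 := by nlinarith
    rw [le_div_iff₀ h3]
    have h4 : 1 - ‖G z‖ ^ 2 ≤ 1 := by nlinarith
    calc ‖deriv G z‖ * (1 - ‖G z‖ ^ 2) ≤ ‖deriv G z‖ * 1 := mul_le_mul_of_nonneg_left h4 (norm_nonneg _)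
      _ = ‖deriv G z‖ := mul_one _
  have hder0 : ‖deriv G 0‖ ≤ 1 / (400 * C) := (hder 0 hUD0).trans h0
  have hx1 := hnorm x hx
  set x' : ℂ := ((31 / 32 : ℝ) : ℂ) * x with hx'
  have hx'n : ‖x'‖ = 31 / 32 * ‖x‖ := by
    rw [hx', norm_mul, Complex.norm_real]
    norm_num
  have hx'U : x' ∈ UD := by
    show x' ∈ ball (0 : ℂ) 1
    rw [mem_ball_zero_iff, hx'n]
    linarith
  have hk := ((hC G 0 1 one_pos hGd hGi).2 x' (by
    rw [mem_ball_zero_iff, hx'n]
    linarith)).2.2.1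
  rw [hG0, sub_zero, sub_zero] at hk
  have hk2 : ‖G x'‖ ≤ 1 / 400 := by
    refine hk.trans ?_
    have h5 : C * ‖x'‖ * ‖deriv G 0‖ ≤ C * 1 * (1 / (400 * C)) := by
      apply mul_le_mul _ hder0 (norm_nonneg _) (by positivity)
      exact mul_le_mul_of_nonneg_left (by rw [hx'n]; linarith) hC0.le
    refine h5.trans (le_of_eq ?_)
    field_simp
  have hconv : Convex ℝ UD := convex_ball 0 1
  have hmv := hconv.norm_image_sub_le_of_norm_deriv_le (f := G) (C := 1 / 4) hGat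
    (fun z hz => (hder z hz).trans (hhd z hz)) hx'U hx
  have hdiff : ‖x - x'‖ ≤ 1 / 32 := by
    have : x - x' = ((1 / 32 : ℝ) : ℂ) * x := by
      rw [hx']
      push_cast
      ring
    rw [this, norm_mul, Complex.norm_real]
    have h6 : ‖(1 / 32 : ℝ)‖ = 1 / 32 := by norm_num
    rw [h6]
    linarith
  have h7 : ‖G x‖ ≤ ‖G x - G x'‖ + ‖G x'‖ := by
    have := norm_add_le (G x - G x') (G x')
    rwa [sub_add_cancel] at this
  have h8 : ‖G x - G x'‖ ≤ 1 / 4 * (1 / 32) := hmv.trans (by linarith)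
  show ‖G x‖ ≤ 1 / 64
  linarith

end HY
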